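import Mathlib

set_option autoImplicit false

namespace Pool.Agent.H.MP_dd23d5_gt

open Set Topology

variable {P : Type} [PartialOrder P] [TopologicalSpace P] [Topology.IsScott P univ]

theorem upper {U : Set P} (hU : IsOpen U) : IsUpperSet U :=
  Topology.IsScott.isUpperSet_of_isOpen (D := univ) hU

omit [TopologicalSpace P] [Topology.IsScott P univ] in
theorem dir_fin {d : Set P} (hne : d.Nonempty) (hd : DirectedOn (· ≤ ·) d) {s : Set P}
    (hs : s.Finite) (hsd : s ⊆ d) : ∃ z ∈ d, ∀ y ∈ s, y ≤ z := by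
  induction s, hs using Set.Finite.induction_on with
  | empty => exact ⟨hne.some, hne.some_mem, by simp⟩
  | insert _ _ ih =>
    obtain ⟨z, hz, hz'⟩ := ih ((subset_insert _ _).trans hsd)
    obtain ⟨w, hw, h1, h2⟩ := hd _ (hsd (mem_insert _ _)) z hz
    refine ⟨w, hw, ?_⟩
    rintro y (rfl | hy)
    exacts [h1, (hz' y hy).trans h2]

/-- every sequence in a compact set has a subsequence bounded below in any open neighbourhood -/
theorem star {C U : Set P} (hC : IsCompact C) (hU : IsOpen U) (hCU : C ⊆ U) (x : ℕ → P)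
    (hx : ∀ n, x n ∈ C) : ∃ y ∈ U, {n | y ≤ x n}.Infinite := by
  by_contra hc
  push Not at hc
  have hcl : ∀ m : ℕ, IsClosed (Uᶜ ∪ {y | ∃ n, m ≤ n ∧ y ≤ x n}) := by
    intro m
    rw [Topology.IsScott.isClosed_iff_isLowerSet_and_dirSupClosed]
    refine ⟨(upper hU).compl.union (fun a b hab ⟨n, h1, h2⟩ => ⟨n, h1, hab.trans h2⟩), ?_⟩
    intro d hd hne hdir s hs
    by_cases hsU : s ∈ U
    · right
      obtain ⟨d0, hd0, hd0U⟩ := ((Topology.IsScott.isOpen_iff_isUpperSet_and_dirSupInaccOn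
        (D := univ)).1 hU).2 (mem_univ d) hne hdir hs hsU
      by_contra hn
      have h1 : ∀ n, ∃ e ∈ d, m ≤ n → ¬ e ≤ x n := by
        intro n
        by_contra h2
        push Not at h2
        exact hn ⟨n, (h2 d0 hd0).1, hs.2 fun e he => (h2 e he).2⟩
      choose e he he' using h1
      obtain ⟨z, hz, hz'⟩ := dir_fin hne hdir (s := insert d0 (e '' {n | d0 ≤ x n}))
        (((hc d0 hd0U).image e).insert d0) (by
          rintro _ (rfl | ⟨n, -, rfl⟩)
          exacts [hd0, he n])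
      have h3 : d0 ≤ z := hz' _ (mem_insert _ _)
      rcases hd hz with h | ⟨n, h1, h2⟩
      · exact h (upper hU h3 hd0U)
      · exact he' n h1 ((hz' _ (mem_insert_of_mem _ ⟨n, h3.trans h2, rfl⟩)).trans h2)
    · exact Or.inl hsU
  obtain ⟨y, hyC, hy⟩ := hC.inter_iInter_nonempty _ hcl (fun u => ⟨x (u.sup id), hx _, by
    simp only [mem_iInter]
    exact fun i hi => Or.inr ⟨_, Finset.le_sup (f := id) hi, le_rfl⟩⟩)
  obtain ⟨M, hM⟩ := (hc y (hCU hyC)).bddAbove
  rcases mem_iInter.1 hy (M + 1) with h | ⟨n, h1, h2⟩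
  · exact h (hCU hyC)
  · have := hM h2
    omega

theorem exists_min {C : Set P} (hC : IsCompact C) {x : P} (hx : x ∈ C) :
    ∃ m, m ≤ x ∧ Minimal (· ∈ C) m := by
  obtain ⟨m, h1, h2⟩ := zorn_le_nonempty₀ (α := Pᵒᵈ) (show Set Pᵒᵈ from C) (by
    intro c hc hch y hy
    by_contra hn
    have : Nonempty c := ⟨⟨y, hy⟩⟩
    obtain ⟨i, hi⟩ := hC.elim_directed_family_closed (fun a : c => Iic (OrderDual.ofDual a.1))
      (fun _ => isClosed_Iic) (by
        rw [eq_empty_iff_forall_notMem]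
        rintro z ⟨hz, hz'⟩
        exact hn ⟨z, hz, fun a ha => mem_iInter.1 hz' ⟨a, ha⟩⟩) (by
        intro a b
        rcases hch.total a.2 b.2 with h | h
        · exact ⟨b, Iic_subset_Iic.2 h, Subset.rfl⟩
        · exact ⟨a, Subset.rfl, Iic_subset_Iic.2 h⟩)
    have : OrderDual.ofDual i.1 ∈ C ∩ Iic (OrderDual.ofDual i.1) := ⟨hc i.2, le_rfl⟩
    rw [hi] at this
    exact this) x hx
  exact ⟨m, h1, h2⟩

/-- the relation of going up to a minimal point of a later compact set -/
def R (C : ℕ → Set P) (p' p : P × ℕ) : Prop :=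
  p.2 < p'.2 ∧ Minimal (· ∈ C p.2) p.1 ∧ Minimal (· ∈ C p'.2) p'.1 ∧ p.1 ≤ p'.1

def NoChain (C : ℕ → Set P) : Prop :=
  ∀ (w : ℕ → P) (l : ℕ → ℕ), (∀ k, l k < l (k + 1)) → (∀ k, w k ∈ C (l k)) →
    (∀ k, w k ≤ w (k + 1)) → False

omit [TopologicalSpace P] [Topology.IsScott P univ] in
theorem wf {C : ℕ → Set P} (h : NoChain C) : IsWellFounded _ (R C) := by
  refine ⟨wellFounded_iff_isEmpty_descending_chain.2 ⟨fun ⟨f, hf⟩ => ?_⟩⟩
  exact h (fun k => (f k).1) (fun k => (f k).2) (fun k => (hf k).1) (fun k => (hf k).2.1.1)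
    (fun k => (hf k).2.2.2)

/-- the rank argument -/
theorem rank_arg {A : Set P} (hA : IsLowerSet A) {C U : ℕ → Set P} (hC : ∀ n, IsCompact (C n))
    (hU : ∀ n, IsOpen (U n)) (h1 : ∀ n, C (n + 1) ⊆ U n ∩ A) (h2 : ∀ n, U n ∩ A ⊆ C n)
    (hne : ∀ n, (C n).Nonempty) [IsWellFounded _ (R C)]
    (hcount : {o | ∃ p : P × ℕ, Minimal (· ∈ C p.2) p.1 ∧
      o = IsWellFounded.rank (R C) p}.Countable) : False := by
  have hanti : Antitone C := antitone_nat_of_succ_le fun n => (h1 n).trans (h2 n)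
  set ρ : P × ℕ → Ordinal.{0} := IsWellFounded.rank (R C) with hρ
  set S : ℕ → Ordinal.{0} := fun k => ⨆ z : {z // Minimal (· ∈ C k) z}, Order.succ (ρ (z.1, k))
    with hS
  obtain ⟨_, ⟨k0, rfl⟩, hk0⟩ := (wellFounded_lt (α := Ordinal.{0})).has_min (range S)
    (range_nonempty S)
  have hc' : {o | ∃ z, Minimal (· ∈ C k0) z ∧ o = ρ (z, k0)}.Countable :=
    hcount.mono (by rintro o ⟨z, hz, e⟩; exact ⟨(z, k0), hz, e⟩)
  obtain ⟨z0, hz0⟩ := hne k0
  obtain ⟨m0, -, hm0⟩ := exists_min (hC k0) hz0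
  obtain ⟨β, hβ⟩ := hc'.exists_eq_range ⟨_, m0, hm0, rfl⟩
  have hβ' : ∀ j, β j < S k0 := by
    intro j
    have : β j ∈ {o | ∃ z, Minimal (· ∈ C k0) z ∧ o = ρ (z, k0)} := hβ ▸ mem_range_self j
    obtain ⟨z, hz, e⟩ := this
    rw [e]
    exact (Order.lt_succ _).trans_le
      (Ordinal.le_iSup (fun z : {z // Minimal (· ∈ C k0) z} => Order.succ (ρ (z.1, k0))) ⟨z, hz⟩)
  have hx : ∀ n, ∃ x, Minimal (· ∈ C (n + k0 + 1)) x ∧ ∀ j ≤ n, β j ≤ ρ (x, n + k0 + 1) := by
    intro n
    have e1 : (Finset.range (n + 1)).sup β < S k0 :=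
      (Finset.sup_lt_iff (bot_le.trans_lt (hβ' 0))).2 fun j _ => hβ' j
    have e2 : S k0 ≤ S (n + k0 + 1) := not_lt.1 (hk0 _ (mem_range_self _))
    obtain ⟨z, hz⟩ := Ordinal.lt_iSup_iff.1 (e1.trans_le e2)
    exact ⟨z.1, z.2, fun j hj => (Finset.le_sup (f := β) (Finset.mem_range.2 (by omega))).trans
      (Order.lt_succ_iff.1 hz)⟩
  choose x hx hx' using hx
  have hxC : ∀ n, x n ∈ C (k0 + 1) := fun n => hanti (by omega) (hx n).1
  obtain ⟨y, hyU, hy⟩ := star (hC (k0 + 1)) (hU k0) (fun z hz => (h1 k0 hz).1) x hxC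
  obtain ⟨n0, hn0⟩ := hy.nonempty
  obtain ⟨m, hmy, hm⟩ := exists_min (hC k0) (h2 k0 ⟨hyU, hA hn0 (h1 k0 (hxC n0)).2⟩)
  have : ρ (m, k0) ∈ range β := hβ ▸ ⟨m, hm, rfl⟩
  obtain ⟨j, hj⟩ := this
  obtain ⟨n, hn, hjn⟩ := hy.exists_gt j
  have e3 : ρ (x n, n + k0 + 1) < ρ (m, k0) :=
    IsWellFounded.rank_lt_of_rel ⟨by show k0 < n + k0 + 1; omega, hm, hx n, hmy.trans hn⟩
  exact absurd (hx' n j hjn.le) (not_le.2 (hj ▸ e3))

/-- boundedness: with a countable base the ranks are countable -/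
theorem bounded {C : ℕ → Set P} (hC : ∀ n, IsCompact (C n)) (hno : NoChain C)
    (b : ℕ → Set P) (hb : ∀ i, IsOpen (b i))
    (hb' : ∀ U, IsOpen U → ∀ x ∈ U, ∃ i, x ∈ b i ∧ b i ⊆ U) [IsWellFounded _ (R C)] :
    {o | ∃ p : P × ℕ, Minimal (· ∈ C p.2) p.1 ∧ o = IsWellFounded.rank (R C) p}.Countable := by
  classical
  have hf : ∀ (p : P × ℕ) (i : ℕ), ∃ c : Option (Finset ℕ), Minimal (· ∈ C p.2) p.1 →
      (c = none ↔ p.1 ∉ b i) ∧ ∀ F, c = some F →
        (∀ l ∈ F, p.1 ∉ b l) ∧ ∀ y ∈ C p.2, y ∈ b i ∨ ∃ l ∈ F, y ∈ b l := by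
    intro p i
    by_cases hp : Minimal (· ∈ C p.2) p.1
    · by_cases hi : p.1 ∈ b i
      · obtain ⟨t, ht⟩ := ((hC p.2).diff (hb i)).elim_finite_subcover
          (fun l : {l // p.1 ∉ b l} => b l.1) (fun l => hb l.1) (by
            rintro y ⟨hy, hyi⟩
            have : y ∈ (Iic p.1)ᶜ := fun h => hyi (upper (hb i) (hp.2 hy h) hi)
            obtain ⟨l, hl, hl'⟩ := hb' _ isClosed_Iic.isOpen_compl y this
            exact mem_iUnion.2 ⟨⟨l, fun h => hl' h le_rfl⟩, hl⟩)
        refine ⟨some (t.image Subtype.val), fun _ => ⟨by simp [hi], ?_⟩⟩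
        rintro F ⟨rfl⟩
        refine ⟨fun l hl => ?_, fun y hy => ?_⟩
        · obtain ⟨l', -, rfl⟩ := Finset.mem_image.1 hl
          exact l'.2
        · by_cases hyi : y ∈ b i
          · exact Or.inl hyi
          · obtain ⟨l, hl, hl'⟩ := mem_iUnion₂.1 (ht ⟨hy, hyi⟩)
            exact Or.inr ⟨l.1, Finset.mem_image_of_mem _ hl, hl'⟩
      · exact ⟨none, fun _ => ⟨by simp [hi], by simp⟩⟩
    · exact ⟨none, fun h => absurd h hp⟩
  choose f hf using hf
  let node : (ℕ → P × ℕ) → ℕ → ℕ × Finset (ℕ × ℕ × ℕ × Option (Finset ℕ)) := fun z n =>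
    (n, (Finset.range n ×ˢ Finset.range n).image (fun q => (q.1, q.2, (z q.1).2, f (z q.1) q.2)))
  have hnode : ∀ z z' n n', node z n = node z' n' → n = n' ∧ ∀ k < n, ∀ i < n,
      (z k).2 = (z' k).2 ∧ f (z k) i = f (z' k) i := by
    intro z z' n n' h
    have e1 : n = n' := congrArg Prod.fst h
    refine ⟨e1, fun k hk i hi => ?_⟩
    have e2 : (k, i, (z k).2, f (z k) i) ∈ (node z n).2 :=
      Finset.mem_image.2 ⟨(k, i), by simp [hk, hi], rfl⟩
    rw [h] at e2
    obtain ⟨q, -, e3⟩ := Finset.mem_image.1 e2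
    simp only [Prod.mk.injEq] at e3
    obtain ⟨rfl, rfl, e4, e5⟩ := e3
    exact ⟨e4.symm, e5.symm⟩
  let T : ℕ × Finset (ℕ × ℕ × ℕ × Option (Finset ℕ)) → ℕ × Finset (ℕ × ℕ × ℕ × Option (Finset ℕ)) →
      Prop := fun s' s => ∃ z n, (∀ k ≤ n, R C (z (k + 1)) (z k)) ∧ s = node z (n + 1) ∧
        s' = node z (n + 2)
  have hT : IsWellFounded _ T := by
    refine ⟨wellFounded_iff_isEmpty_descending_chain.2 ⟨fun ⟨s, hs⟩ => ?_⟩⟩
    choose z n hz h1 h2 using hs
    have h3 : ∀ j, node (z j) (n j + 2) = node (z (j + 1)) (n (j + 1) + 1) :=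
      fun j => (h2 j).symm.trans (h1 (j + 1))
    have hn : ∀ j, n (j + 1) = n j + 1 := fun j => by
      have := (hnode _ _ _ _ (h3 j)).1
      omega
    have hn' : ∀ j, j ≤ n j := fun j => by
      induction j with
      | zero => omega
      | succ j ih => rw [hn]; omega
    have hst : ∀ k i j, k ≤ j → i ≤ j → ∀ j', j ≤ j' →
        (z j k).2 = (z j' k).2 ∧ f (z j k) i = f (z j' k) i := by
      intro k i j hk hi j' hj
      induction j', hj using Nat.le_induction with
      | base => exact ⟨rfl, rfl⟩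
      | succ j' hj ih =>
        have := hn' j'
        have e := (hnode _ _ _ _ (h3 j')).2 k (by omega) i (by omega)
        exact ⟨ih.1.trans e.1, ih.2.trans e.2⟩
    have hmin : ∀ k j, k ≤ j → Minimal (· ∈ C (z j k).2) (z j k).1 := fun k j hk =>
      (hz j k (hk.trans (hn' j))).2.1
    let l : ℕ → ℕ := fun k => (z k k).2
    let g : ℕ → ℕ → Option (Finset ℕ) := fun k i => f (z (max k i) k) i
    have hl : ∀ k j, k ≤ j → (z j k).2 = l k := fun k j hk =>
      (hst k 0 k le_rfl (Nat.zero_le _) j hk).1.symm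
    have hg : ∀ k i j, k ≤ j → i ≤ j → f (z j k) i = g k i := fun k i j hk hi =>
      (hst k i (max k i) (le_max_left _ _) (le_max_right _ _) j (max_le hk hi)).2.symm
    have hw : ∀ k, ∃ w ∈ C (l k), ∀ i, g k i = none ↔ w ∉ b i := by
      intro k
      obtain ⟨w, hw, hw'⟩ := (hC (l k)).inter_iInter_nonempty
        (fun i : {i // g k i = none} => (b i.1)ᶜ) (fun i => (hb i.1).isClosed_compl) (fun u => by
          have e1 : k ≤ max k (u.sup Subtype.val) := le_max_left _ _
          refine ⟨(z (max k (u.sup Subtype.val)) k).1, ?_, ?_⟩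
          · rw [← hl k _ e1]
            exact (hmin k _ e1).1
          · simp only [mem_iInter]
            intro i hi
            refine ((hf _ i.1 (hmin k _ e1)).1).1 ?_
            rw [hg k i.1 _ e1 ((Finset.le_sup (f := Subtype.val) hi).trans (le_max_right _ _))]
            exact i.2)
      have hw2 : ∀ i, g k i = none → w ∉ b i := fun i hi => mem_iInter.1 hw' ⟨i, hi⟩
      refine ⟨w, hw, fun i => ⟨hw2 i, fun hi => ?_⟩⟩
      by_contra hc
      obtain ⟨F, hF⟩ := Option.ne_none_iff_exists'.1 hc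
      set j := max (max k i) (F.sup id) with hj
      have e1 : k ≤ j := (le_max_left _ _).trans (le_max_left _ _)
      have e2 : i ≤ j := (le_max_right _ _).trans (le_max_left _ _)
      obtain ⟨e3, e4⟩ := (hf _ i (hmin k j e1)).2 F ((hg k i j e1 e2).trans hF)
      rcases e4 w (by rw [hl k j e1]; exact hw) with h | ⟨l', hl', h⟩
      · exact hi h
      · refine hw2 l' ?_ h
        rw [← hg k l' j e1 ((Finset.le_sup (f := id) hl').trans (le_max_right _ _))]
        exact ((hf _ l' (hmin k j e1)).1).2 (e3 l' hl')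
    choose w hw hw' using hw
    refine hno w l (fun k => ?_) hw (fun k => ?_)
    · rw [← hl k (k + 1) (by omega)]
      exact (hz (k + 1) k (by have := hn' (k + 1); omega)).1
    · by_contra hc
      obtain ⟨i, hi, hi'⟩ := hb' _ (isClosed_Iic (a := w (k + 1))).isOpen_compl (w k) hc
      set j := max (k + 1) i with hj
      have e1 : k + 1 ≤ j := le_max_left _ _
      have e2 : i ≤ j := le_max_right _ _
      have e3 : (z j (k + 1)).1 ∉ b i := ((hf _ i (hmin _ j e1)).1).1 (by
        rw [hg _ i j e1 e2]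
        exact (hw' _ i).2 fun h => hi' h le_rfl)
      have e4 : (z j k).1 ∈ b i := by
        by_contra h
        have := ((hf _ i (hmin k j (by omega))).1).2 h
        rw [hg k i j (by omega) e2] at this
        exact (hw' k i).1 this hi
      exact e3 (upper (hb i) (hz j k (by have := hn' j; omega)).2.2.2 e4)
  have key : ∀ p : P × ℕ, ∀ z n, (∀ k < n, R C (z (k + 1)) (z k)) → z n = p →
      IsWellFounded.rank (R C) p ≤ IsWellFounded.rank T (node z (n + 1)) := by
    intro p
    induction p using IsWellFounded.induction (R C) with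
    | ind p ih =>
      intro z n hz hp
      rw [IsWellFounded.rank_eq]
      refine Ordinal.iSup_le fun q => Order.succ_le_of_lt ?_
      have e0 : ∀ k ≤ n, Function.update z (n + 1) q.1 k = z k := fun k hk =>
        Function.update_of_ne (by omega) _ _
      have e1 : ∀ k < n + 1, R C (Function.update z (n + 1) q.1 (k + 1))
          (Function.update z (n + 1) q.1 k) := by
        intro k hk
        rw [e0 k (by omega)]
        by_cases hkn : k = n
        · subst hkn
          rw [Function.update_self, hp]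
          exact q.2
        · rw [e0 (k + 1) (by omega)]
          exact hz k (by omega)
      refine (ih q.1 q.2 _ (n + 1) e1 (Function.update_self _ _ _)).trans_lt
        (IsWellFounded.rank_lt_of_rel ⟨_, n, fun k hk => e1 k (by omega), ?_, rfl⟩)
      refine Prod.ext rfl (Finset.image_congr fun q' hq' => ?_)
      have : q'.1 ≤ n := by
        have := (Finset.mem_product.1 hq').1
        rw [Finset.mem_range] at this
        omega
      simp only [e0 _ this]
  refine (countable_range (IsWellFounded.rank T)).mono ?_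
  rintro o ⟨p, -, rfl⟩
  exact IsWellFounded.mem_range_rank_of_le (key p (fun _ => p) 0 (by simp) rfl)

theorem sober_of (hd : ∀ d : Set P, d.Nonempty → DirectedOn (· ≤ ·) d → ∃ x, IsLUB d x)
    [LocallyCompactSpace P] (h : SecondCountableTopology P ∨ Countable P) : QuasiSober P := by
  refine ⟨fun {A} hA hAc => ?_⟩
  by_contra hn
  have hlow := Topology.IsScott.isLowerSet_of_isClosed hAc
  have htop : ∀ a ∈ A, ∃ a' ∈ A, a' ∈ (Iic a)ᶜ := by
    intro a ha
    by_contra hc
    push Not at hc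
    refine hn ⟨a, ?_⟩
    rw [isGenericPoint_def, Topology.IsScott.closure_singleton]
    exact Subset.antisymm (fun y hy => hlow hy ha) (fun y hy => not_not.1 (hc y hy))
  have hW : ∃ W : ℕ → Set P, (∀ n, IsOpen (W n) ∧ (A ∩ W n).Nonempty) ∧
      ∀ a ∈ A, ∃ n, a ∉ W n := by
    rcases h with h | h
    · have hc : {B ∈ TopologicalSpace.countableBasis P | (A ∩ B).Nonempty}.Countable :=
        (TopologicalSpace.countable_countableBasis P).mono fun _ h => h.1
      have h2 : ∀ a ∈ A, ∃ B ∈ {B ∈ TopologicalSpace.countableBasis P | (A ∩ B).Nonempty},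
          a ∉ B := by
        intro a ha
        obtain ⟨a', ha', h'⟩ := htop a ha
        obtain ⟨B, hB, h1, h2⟩ := (TopologicalSpace.isBasis_countableBasis P).exists_subset_of_mem_open
          h' isClosed_Iic.isOpen_compl
        exact ⟨B, ⟨hB, a', ha', h1⟩, fun h => h2 h le_rfl⟩
      obtain ⟨a0, ha0⟩ := hA.nonempty
      obtain ⟨B0, hB0, -⟩ := h2 a0 ha0
      obtain ⟨W, hW⟩ := hc.exists_eq_range ⟨B0, hB0⟩
      refine ⟨W, fun n => ?_, fun a ha => ?_⟩
      · have : W n ∈ {B ∈ TopologicalSpace.countableBasis P | (A ∩ B).Nonempty} :=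
          hW ▸ mem_range_self n
        exact ⟨TopologicalSpace.isOpen_of_mem_countableBasis this.1, this.2⟩
      · obtain ⟨B, hB, h⟩ := h2 a ha
        rw [hW] at hB
        obtain ⟨n, rfl⟩ := hB
        exact ⟨n, h⟩
    · obtain ⟨e, he⟩ := (A.to_countable).exists_eq_range hA.nonempty
      refine ⟨fun n => (Iic (e n))ᶜ, fun n => ⟨isClosed_Iic.isOpen_compl,
        htop _ (he ▸ mem_range_self n)⟩, fun a ha => ?_⟩
      rw [he] at ha
      obtain ⟨n, rfl⟩ := ha
      exact ⟨n, fun h => h le_rfl⟩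
  obtain ⟨W, hW, hW'⟩ := hW
  have step : ∀ (n : ℕ) (K : {K : Set P // IsCompact K ∧ (A ∩ interior K).Nonempty}),
      ∃ K' : {K : Set P // IsCompact K ∧ (A ∩ interior K).Nonempty},
        K'.1 ⊆ interior K.1 ∩ W n := by
    intro n K
    obtain ⟨x, hxA, hx⟩ := hA.2 _ _ isOpen_interior (hW n).1 K.2.2 (hW n).2
    obtain ⟨K', h1, h2, h3⟩ := exists_compact_subset (isOpen_interior.inter (hW n).1) hx
    exact ⟨⟨K', h1, x, hxA, h2⟩, h3⟩
  choose st hst using step
  obtain ⟨a0, ha0⟩ := hA.nonempty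
  obtain ⟨K0, h1, h2, -⟩ := exists_compact_subset isOpen_univ (mem_univ a0)
  let K : ℕ → {K : Set P // IsCompact K ∧ (A ∩ interior K).Nonempty} :=
    fun n => Nat.rec ⟨K0, h1, a0, ha0, h2⟩ st n
  have hK : ∀ n, (K (n + 1)).1 ⊆ interior (K n).1 ∩ W n := fun n => hst n (K n)
  have hC : ∀ n, IsCompact ((K n).1 ∩ A) := fun n => (K n).2.1.inter_right hAc
  have hanti : Antitone (fun n => (K n).1) :=
    antitone_nat_of_succ_le fun n x hx => interior_subset (hK n hx).1
  have hno : NoChain (fun n => (K n).1 ∩ A) := by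
    intro w l hl hw hw'
    have hm : Monotone w := monotone_nat_of_le_succ hw'
    obtain ⟨s, hs⟩ := hd (range w) (range_nonempty w) (directedOn_range.2 hm.directed_le)
    have hsA : s ∈ A := Topology.IsScott.dirSupClosed_of_isClosed hAc
      (by rintro _ ⟨k, rfl⟩; exact (hw k).2) (range_nonempty w)
      (directedOn_range.2 hm.directed_le) hs
    obtain ⟨n, hn⟩ := hW' s hsA
    have := (strictMono_nat_of_lt_succ hl).le_apply (x := n + 1)
    exact hn (upper (hW n).1 (hs.1 (mem_range_self (n + 1))) (hK n (hanti this (hw (n + 1)).1)).2)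
  have := wf hno
  refine rank_arg hlow (C := fun n => (K n).1 ∩ A) (U := fun n => interior (K n).1) hC
    (fun _ => isOpen_interior) (fun n x hx => ⟨(hK n hx.1).1, hx.2⟩)
    (fun n x hx => ⟨interior_subset hx.1, hx.2⟩) (fun n => ?_) ?_
  · obtain ⟨x, h1, h2⟩ := (K n).2.2
    exact ⟨x, interior_subset h2, h1⟩
  · rcases h with h | h
    · obtain ⟨b, hb⟩ := ((TopologicalSpace.countable_countableBasis P).insert ∅).exists_eq_range
        (insert_nonempty _ _)
      refine bounded hC hno b (fun i => ?_) (fun U hU x hx => ?_)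
      · have : b i ∈ insert ∅ (TopologicalSpace.countableBasis P) := hb ▸ mem_range_self i
        rcases this with e | e
        · rw [e]; exact isOpen_empty
        · exact TopologicalSpace.isOpen_of_mem_countableBasis e
      · obtain ⟨B, hB, h1, h2⟩ :=
          (TopologicalSpace.isBasis_countableBasis P).exists_subset_of_mem_open hx hU
        have : B ∈ range b := hb ▸ mem_insert_of_mem _ hB
        obtain ⟨i, rfl⟩ := this
        exact ⟨i, h1, h2⟩
    · refine (countable_range (IsWellFounded.rank (R (fun n => (K n).1 ∩ A)))).mono ?_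
      rintro o ⟨p, -, rfl⟩
      exact mem_range_self p

end Pool.Agent.H.MP_dd23d5_gt
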